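import Mathlib

/-!
Double extensions of right alternative rings of characteristic two.
-/

namespace Pool.Agent.helper53.RA2

/-- The right alternative law `(y x) x = y (x x)`. -/
def IsRA (R : Type*) [Mul R] : Prop := ∀ x y : R, (y * x) * x = y * (x * x)

section Ext

variable {D T V : Type*} [NonUnitalNonAssocRing D] [NonUnitalNonAssocRing T] [AddCommGroup V]

/-- The underlying group of the double extension. -/
def Ext (D : Type*) {T V : Type*} [NonUnitalNonAssocRing D] [NonUnitalNonAssocRing T]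
    [AddCommGroup V] (_ρ : T →+ AddMonoid.End V) : Type _ := D × V × T × (V →+ D)

variable (ρ : T →+ AddMonoid.End V)

instance : AddCommGroup (Ext D ρ) := inferInstanceAs (AddCommGroup (D × V × T × (V →+ D)))

/-- The product of the double extension. -/
def extMul (x y : Ext D ρ) : Ext D ρ :=
  (x.1 * y.1 + y.2.2.2 x.2.1 + x.2.2.2 y.2.1,
   ρ y.2.2.1 x.2.1,
   x.2.2.1 * y.2.2.1,
   (AddMonoidHom.mulRight y.1).comp x.2.2.2 + x.2.2.2.comp (ρ y.2.2.1))

instance : Mul (Ext D ρ) := ⟨extMul ρ⟩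

theorem mul_def (x y : Ext D ρ) : x * y = (x.1 * y.1 + y.2.2.2 x.2.1 + x.2.2.2 y.2.1,
   ρ y.2.2.1 x.2.1,
   x.2.2.1 * y.2.2.1,
   (AddMonoidHom.mulRight y.1).comp x.2.2.2 + x.2.2.2.comp (ρ y.2.2.1)) := rfl

@[simp] theorem mul_1 (x y : Ext D ρ) :
    (x * y).1 = x.1 * y.1 + y.2.2.2 x.2.1 + x.2.2.2 y.2.1 := rfl
@[simp] theorem mul_2 (x y : Ext D ρ) : (x * y).2.1 = ρ y.2.2.1 x.2.1 := rfl
@[simp] theorem mul_3 (x y : Ext D ρ) : (x * y).2.2.1 = x.2.2.1 * y.2.2.1 := rfl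
@[simp] theorem mul_4 (x y : Ext D ρ) (w : V) :
    (x * y).2.2.2 w = x.2.2.2 w * y.1 + x.2.2.2 (ρ y.2.2.1 w) := rfl
@[simp] theorem add_1 (x y : Ext D ρ) : (x + y).1 = x.1 + y.1 := rfl
@[simp] theorem add_2 (x y : Ext D ρ) : (x + y).2.1 = x.2.1 + y.2.1 := rfl
@[simp] theorem add_3 (x y : Ext D ρ) : (x + y).2.2.1 = x.2.2.1 + y.2.2.1 := rfl
@[simp] theorem add_4 (x y : Ext D ρ) (w : V) : (x + y).2.2.2 w = x.2.2.2 w + y.2.2.2 w := rfl
@[simp] theorem zero_1 : (0 : Ext D ρ).1 = 0 := rfl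
@[simp] theorem zero_2 : (0 : Ext D ρ).2.1 = 0 := rfl
@[simp] theorem zero_3 : (0 : Ext D ρ).2.2.1 = 0 := rfl
@[simp] theorem zero_4 (w : V) : (0 : Ext D ρ).2.2.2 w = 0 := rfl

theorem ext' {x y : Ext D ρ} (h1 : x.1 = y.1) (h2 : x.2.1 = y.2.1) (h3 : x.2.2.1 = y.2.2.1)
    (h4 : ∀ w, x.2.2.2 w = y.2.2.2 w) : x = y :=
  Prod.ext h1 (Prod.ext h2 (Prod.ext h3 (AddMonoidHom.ext h4)))

theorem rho_add (s t : T) (w : V) : ρ (s + t) w = ρ s w + ρ t w := by
  rw [map_add]; rfl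

instance : NonUnitalNonAssocRing (Ext D ρ) :=
  { (inferInstance : AddCommGroup (Ext D ρ)), (inferInstance : Mul (Ext D ρ)) with
    left_distrib := by
      intro a b c
      apply ext'
      · simp only [mul_1, add_1, add_2, add_4, mul_add, map_add]; abel
      · simp only [mul_2, add_2, add_3, rho_add]
      · simp only [mul_3, add_3, mul_add]
      · intro w
        simp only [mul_4, add_4, add_1, add_3, mul_add, rho_add]
        rw [(a.2.2.2).map_add]; abel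
    right_distrib := by
      intro a b c
      apply ext'
      · simp only [mul_1, add_1, add_2, add_4, add_mul, map_add]; abel
      · simp only [mul_2, add_2, map_add]
      · simp only [mul_3, add_3, add_mul]
      · intro w
        simp only [mul_4, add_4, add_mul]; abel
    zero_mul := by
      intro a
      apply ext' <;> simp
    mul_zero := by
      intro a
      apply ext' <;> simp }

/-- The double extension of right alternative rings of characteristic two is again one. -/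
theorem isRA_ext (hD : IsRA D) (hD2 : ∀ d : D, d + d = 0) (hT : IsRA T)
    (hρ : ∀ (t : T) (w : V), ρ (t * t) w = ρ t (ρ t w)) : IsRA (Ext D ρ) := by
  intro x y
  have h2 : ∀ a b c : D, a = b + (c + c) → a = b := by
    intro a b c h; rw [h, hD2, add_zero]
  apply ext'
  · simp only [mul_1, mul_2, mul_4, add_mul, mul_add]
    have e1 := hD x.1 y.1
    have e2 := hD2 (y.2.2.2 x.2.1 * x.1)
    have e3 := hD2 (y.1 * x.2.2.2 x.2.1)
    rw [e1]
    have : y.1 * (x.1 * x.1) + x.2.2.2 y.2.1 * x.1 + y.2.2.2 x.2.1 * x.1 +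
        x.2.2.2 ((ρ x.2.2.1) y.2.1) +
        (y.2.2.2 x.2.1 * x.1 + y.2.2.2 ((ρ x.2.2.1) x.2.1)) =
        y.1 * (x.1 * x.1) + x.2.2.2 y.2.1 * x.1 + 
        x.2.2.2 ((ρ x.2.2.1) y.2.1) + y.2.2.2 ((ρ x.2.2.1) x.2.1) +
        (y.2.2.2 x.2.1 * x.1 + y.2.2.2 x.2.1 * x.1) := by abel
    rw [this, e2, add_zero]
    have : y.1 * (x.1 * x.1) + y.1 * x.2.2.2 x.2.1 + y.1 * x.2.2.2 x.2.1 +
        (x.2.2.2 y.2.1 * x.1 + x.2.2.2 ((ρ x.2.2.1) y.2.1)) + y.2.2.2 ((ρ x.2.2.1) x.2.1) =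
        y.1 * (x.1 * x.1) + x.2.2.2 y.2.1 * x.1 + 
        x.2.2.2 ((ρ x.2.2.1) y.2.1) + y.2.2.2 ((ρ x.2.2.1) x.2.1) +
        (y.1 * x.2.2.2 x.2.1 + y.1 * x.2.2.2 x.2.1) := by abel
    rw [this, e3, add_zero]
  · simp only [mul_2, mul_3, hρ]
  · simp only [mul_3]
    exact hT _ _
  · intro w
    simp only [mul_4, mul_1, mul_3, add_mul, mul_add, hρ]
    have e1 := hD x.1 (y.2.2.2 w)
    have e2 := hD2 (y.2.2.2 (ρ x.2.2.1 w) * x.1)
    have e3 := hD2 (y.2.2.2 w * x.2.2.2 x.2.1)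
    rw [e1]
    have : y.2.2.2 w * (x.1 * x.1) + y.2.2.2 ((ρ x.2.2.1) w) * x.1 +
        (y.2.2.2 ((ρ x.2.2.1) w) * x.1 + y.2.2.2 ((ρ x.2.2.1) ((ρ x.2.2.1) w))) =
        y.2.2.2 w * (x.1 * x.1) + y.2.2.2 ((ρ x.2.2.1) ((ρ x.2.2.1) w)) + 
        (y.2.2.2 (ρ x.2.2.1 w) * x.1 + y.2.2.2 (ρ x.2.2.1 w) * x.1) := by abel
    rw [this, e2, add_zero]
    have : y.2.2.2 w * (x.1 * x.1) + y.2.2.2 w * x.2.2.2 x.2.1 +
        y.2.2.2 w * x.2.2.2 x.2.1 + y.2.2.2 ((ρ x.2.2.1) ((ρ x.2.2.1) w)) =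
        y.2.2.2 w * (x.1 * x.1) + y.2.2.2 ((ρ x.2.2.1) ((ρ x.2.2.1) w)) + 
        (y.2.2.2 w * x.2.2.2 x.2.1 + y.2.2.2 w * x.2.2.2 x.2.1) := by abel
    rw [this, e3, add_zero]

/-- Characteristic two is inherited. -/
theorem char_ext (hD2 : ∀ d : D, d + d = 0) (hT2 : ∀ d : T, d + d = 0) (hV2 : ∀ d : V, d + d = 0)
    (x : Ext D ρ) : x + x = 0 := by
  apply ext'
  · simpa using hD2 _
  · simpa using hV2 _
  · simpa using hT2 _
  · intro w; simpa using hD2 _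

/-- The embedding of `D`. -/
def inl : D →ₙ+* Ext D ρ where
  toFun d := (d, 0, 0, 0)
  map_zero' := rfl
  map_add' a b := by
    apply ext'
    · rfl
    · simp
    · simp
    · intro w
      rw [add_4]
      change (0 : V →+ D) w = (0 : V →+ D) w + (0 : V →+ D) w
      simp
  map_mul' a b := by
    apply ext'
    · rw [mul_1]
      change a * b = a * b + (0 : V →+ D) 0 + (0 : V →+ D) 0
      simp
    · rw [mul_2]
      change (0 : V) = ρ 0 0
      simp
    · rw [mul_3]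
      change (0 : T) = 0 * 0
      simp
    · intro w
      rw [mul_4]
      change (0 : V →+ D) w = (0 : V →+ D) w * b + (0 : V →+ D) _
      simp

theorem inl_injective : Function.Injective (inl (D := D) ρ) := by
  intro a b h
  exact congrArg Prod.fst h

theorem inl_apply (d : D) : inl ρ d = ((d, 0, 0, 0) : D × V × T × (V →+ D)) := rfl

end Ext

end Pool.Agent.helper53.RA2
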