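import Mathlib
import Pool.Agent.helper53.RA2.Ext

/-!
Free right alternative rings over the integers and the varieties they generate.
-/

namespace Pool.Agent.helper53.RA2

open FreeNonUnitalNonAssocAlgebra

/-- The defining relations `(y x) x = y (x x)` of right alternative rings, imposed on all elements
of the free nonassociative ring on `X`. -/
inductive RARel (X : Type) :
    FreeNonUnitalNonAssocAlgebra ℤ X → FreeNonUnitalNonAssocAlgebra ℤ X → Prop
  | mk (x y : FreeNonUnitalNonAssocAlgebra ℤ X) : RARel X ((y * x) * x) (y * (x * x))

/-- The free right alternative ring (over the integers, not unital) on the set `X` of free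
generators: the free nonassociative ring on `X` modulo the congruence generated by `RARel`. -/
abbrev FreeRA (X : Type) : Type := (ringConGen (RARel X)).Quotient

/-- The ring `R` satisfies the identity `f = 0`, where `f` is an element of the free
nonassociative ring in countably many variables: every substitution of elements of `R` for the
variables sends `f` to `0`. -/
def Satisfies (R : Type*) [NonUnitalNonAssocRing R] (f : FreeNonUnitalNonAssocAlgebra ℤ ℕ) :
    Prop := ∀ a : ℕ → R, lift ℤ a f = 0

/-- `R` belongs to the variety `C_n` generated by the free right alternative ring on `n`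
generators: `R` satisfies every identity of that ring. -/
def InVariety (n : ℕ) (R : Type*) [NonUnitalNonAssocRing R] : Prop :=
  ∀ f : FreeNonUnitalNonAssocAlgebra ℤ ℕ, Satisfies (FreeRA (Fin n)) f → Satisfies R f

theorem isRA_freeRA (X : Type) : IsRA (FreeRA X) := by
  intro x y
  induction x using Quotient.inductionOn with
  | h x =>
    induction y using Quotient.inductionOn with
    | h y =>
      exact (RingCon.eq (ringConGen (RARel X))).2
        (RingConGen.Rel.of _ _ (RARel.mk x y))

/-- The congruence `φ x = φ y` of a homomorphism. -/
def kerCon {A B : Type*} [NonUnitalNonAssocRing A] [NonUnitalNonAssocRing B] (φ : A →ₙ+* B) :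
    RingCon A where
  r x y := φ x = φ y
  iseqv := ⟨fun _ => rfl, fun h => h.symm, fun h h' => h.trans h'⟩
  add' := by
    intro a b c d h h'
    rw [map_add, map_add]
    exact congrArg₂ (· + ·) h h'
  mul' := by
    intro a b c d h h'
    rw [map_mul, map_mul]
    exact congrArg₂ (· * ·) h h'

/-- The homomorphism from the free right alternative ring given by images of generators. -/
noncomputable def freeLift {X : Type} {S : Type*} [NonUnitalNonAssocRing S] (hS : IsRA S)
    (s : X → S) : FreeRA X →ₙ+* S where
  toFun := Quotient.lift (fun x => lift ℤ s x) (by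
    intro a b hab
    have h : ringConGen (RARel X) ≤
        kerCon ((lift ℤ s : FreeNonUnitalNonAssocAlgebra ℤ X →ₙₐ[ℤ] S) :
          FreeNonUnitalNonAssocAlgebra ℤ X →ₙ+* S) := by
      rw [RingCon.ringConGen_le]
      intro x y hxy
      cases hxy with
      | mk x y =>
        change lift ℤ s ((y * x) * x) = lift ℤ s (y * (x * x))
        rw [map_mul, map_mul, map_mul, map_mul]
        exact hS _ _
    exact h hab)
  map_zero' := map_zero (lift ℤ s)
  map_add' x y := by
    induction x using Quotient.inductionOn with
    | h x =>
      induction y using Quotient.inductionOn with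
      | h y => exact map_add (lift ℤ s) x y
  map_mul' x y := by
    induction x using Quotient.inductionOn with
    | h x =>
      induction y using Quotient.inductionOn with
      | h y => exact map_mul (lift ℤ s) x y

/-- The `i`-th free generator. -/
noncomputable def fgen {X : Type} (i : X) : FreeRA X :=
  ((of ℤ i : FreeNonUnitalNonAssocAlgebra ℤ X))

theorem freeLift_fgen {X : Type} {S : Type*} [NonUnitalNonAssocRing S] (hS : IsRA S)
    (s : X → S) (i : X) : freeLift hS s (fgen i) = s i :=
  lift_of_apply ℤ s i

/-- Substitutions are natural in the ring. -/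
theorem lift_map {A B : Type*} [NonUnitalNonAssocRing A] [NonUnitalNonAssocRing B]
    (ψ : A →ₙ+* B) (a : ℕ → A) (f : FreeNonUnitalNonAssocAlgebra ℤ ℕ) :
    lift ℤ (fun i => ψ (a i)) f = ψ (lift ℤ a f) := by
  let ψ' : A →ₙₐ[ℤ] B :=
    { ψ with map_smul' := fun n x => map_zsmul ψ n x }
  have h : (ψ'.comp (lift ℤ a)) = lift ℤ (fun i => ψ (a i)) := by
    rw [← lift_unique]
    funext i
    change ψ (lift ℤ a (of ℤ i)) = ψ (a i)
    rw [lift_of_apply]
  rw [← h]
  rfl

end Pool.Agent.helper53.RA2
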