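import Pool.Agent.helper53.RA2.One

/-!
A countable family of elements lies in a two-generated subring of an extension.
-/

open Polynomial

namespace Pool.Agent.helper53.RA2

/-- Polynomials over the field with two elements acting on themselves by multiplication. -/
noncomputable def rhoP : (ZMod 2)[X] →+ AddMonoid.End (ZMod 2)[X] := AddMonoid.End.mulLeft

theorem rhoP_apply (t w : (ZMod 2)[X]) : rhoP t w = t * w := rfl

theorem isRA_poly : IsRA (ZMod 2)[X] := fun x y => mul_assoc y x x

theorem char_poly (x : (ZMod 2)[X]) : x + x = 0 := CharTwo.add_self_eq_zero x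

section

variable {D : Type*} [NonUnitalNonAssocRing D]

/-- The additive map sending `X ^ k` to `a k`. -/
noncomputable def seqHom [Module (ZMod 2) D] (a : ℕ → D) : (ZMod 2)[X] →+ D :=
  (Polynomial.lsum (fun n => LinearMap.toSpanSingleton (ZMod 2) D (a n))).toAddMonoidHom

theorem seqHom_pow [Module (ZMod 2) D] (a : ℕ → D) (k : ℕ) : seqHom a (X ^ k) = a k := by
  unfold seqHom
  change Polynomial.lsum (fun n => LinearMap.toSpanSingleton (ZMod 2) D (a n)) (X ^ k) = a k
  rw [Polynomial.lsum_apply, ← Polynomial.monomial_one_right_eq_X_pow,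
    Polynomial.sum_monomial_index]
  · simp
  · simp

/-- First generator. -/
noncomputable def genP : Ext D rhoP := (0, (1 : (ZMod 2)[X]), 0, 0)

/-- Second generator. -/
noncomputable def genQ [Module (ZMod 2) D] (a : ℕ → D) : Ext D rhoP :=
  (0, 0, (X : (ZMod 2)[X]), seqHom a)

/-- Left normed powers: `lpow q k = ((q q) q) ... q` with `k + 1` factors. -/
def lpow {A : Type*} [Mul A] (q : A) : ℕ → A
  | 0 => q
  | k + 1 => lpow q k * q

theorem lpow_genQ [Module (ZMod 2) D] (a : ℕ → D) (k : ℕ) :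
    (lpow (genQ a) k).1 = 0 ∧ (lpow (genQ a) k).2.1 = 0 ∧
      (lpow (genQ a) k).2.2.1 = X ^ (k + 1) ∧
      ∀ w, (lpow (genQ a) k).2.2.2 w = seqHom a (X ^ k * w) := by
  induction k with
  | zero => exact ⟨rfl, rfl, by simp [lpow, genQ], fun w => by simp [lpow, genQ]⟩
  | succ k ih =>
    obtain ⟨h1, h2, h3, h4⟩ := ih
    have e1 : (genQ a).1 = 0 := rfl
    have e2 : (genQ a).2.1 = 0 := rfl
    have e3 : (genQ a).2.2.1 = X := rfl
    have e4 : (genQ a).2.2.2 = seqHom a := rfl
    refine ⟨?_, ?_, ?_, ?_⟩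
    · rw [lpow, mul_1, h1, h2, e1, e2]; simp
    · rw [lpow, mul_2, h2]; simp
    · rw [lpow, mul_3, h3, e3]; ring
    · intro w
      rw [lpow, mul_4, h4, h4, e1, e3, rhoP_apply]
      simp only [mul_zero, zero_add]
      congr 1
      ring

theorem lpow_mul_genP [Module (ZMod 2) D] (a : ℕ → D) (k : ℕ) :
    lpow (genQ a) k * genP = inl rhoP (a k) := by
  obtain ⟨h1, h2, h3, h4⟩ := lpow_genQ a k
  have e1 : (genP : Ext D rhoP).1 = 0 := rfl
  have e2 : (genP : Ext D rhoP).2.1 = 1 := rfl
  have e3 : (genP : Ext D rhoP).2.2.1 = 0 := rfl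
  have e4 : (genP : Ext D rhoP).2.2.2 = 0 := rfl
  apply ext'
  · rw [mul_1, h1, h2, e1, e2, e4, h4]
    simp [inl_apply, seqHom_pow]
  · rw [mul_2, h2, e3]
    simp [inl_apply]
  · rw [mul_3, e3]
    simp [inl_apply]
  · intro w
    rw [mul_4, h4, e1, e3, rhoP_apply]
    simp [inl_apply]

end

end Pool.Agent.helper53.RA2
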