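import Mathlib
import Pool.Agent.helper53.RA2.Defs
import Pool.Agent.helper53.RA2.Seq

/-!
Twice a one-generated right alternative ring is commutative and associative.
-/

namespace Pool.Agent.helper53.RA2

section

variable {S : Type*} [NonUnitalNonAssocRing S]

/-- Linearised right alternative law. -/
theorem ra_lin (hS : IsRA S) (a b c : S) : (a * b) * c + (a * c) * b = a * (b * c) + a * (c * b) := by
  have h := hS (b + c) a
  have hb := hS b a
  have hc := hS c a
  have e1 : (a * (b + c)) * (b + c) =
      (a * b) * b + (a * c) * c + ((a * b) * c + (a * c) * b) := by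
    rw [mul_add a b c, add_mul, mul_add (a * b), mul_add (a * c)]; abel
  have e2 : a * ((b + c) * (b + c)) =
      a * (b * b) + a * (c * c) + (a * (b * c) + a * (c * b)) := by
    rw [add_mul, mul_add b, mul_add c, mul_add, mul_add, mul_add]; abel
  rw [e1, e2, hb, hc] at h
  exact add_left_cancel h

/-- Twice the right Moufang identity. -/
theorem two_moufang (hS : IsRA S) (w x y : S) :
    w * ((x * y) * x) + w * ((x * y) * x) = ((w * x) * y) * x + ((w * x) * y) * x := by
  have l1 := ra_lin hS w x y
  have l2 := ra_lin hS w x (x * y + y * x)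
  have l3 := ra_lin hS (w * x) x y
  have l4 := ra_lin hS w (x * x) y
  have l5 := ra_lin hS x x y
  have r1 := hS x w
  have r2 := hS x (w * y)
  have r3 := hS x y
  -- expand
  have m1 : w * (x * y + y * x) = (w * x) * y + (w * y) * x := by rw [mul_add, l1]
  have m2 : (w * x) * (x * y + y * x) = ((w * x) * x) * y + ((w * x) * y) * x := by
    rw [mul_add, l3]
  rw [m1, m2, add_mul, r2, r1] at l2
  -- l2 : (w * (x*x)) * y + ((w*x)*y)*x + (((w*x)*y)*x + (w*y)*(x*x)) = ...
  have e : w * ((x * y) * x) + w * ((x * y) * x) =
      w * (x * (x * y + y * x)) + w * ((x * y + y * x) * x) -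
        (w * ((x * x) * y) + w * (y * (x * x))) := by
    rw [← mul_add w (x * y * x), ← mul_add w, ← mul_add w, ← mul_sub]
    congr 1
    rw [mul_add x, add_mul, r3]
    have : x * (x * y) + x * (y * x) = (x * x) * y + (x * y) * x := l5.symm
    rw [this]; abel
  rw [e, ← l2, ← l4]
  abel

/-- Iterated right multiplication. -/
def rpow (x : S) : ℕ → S → S
  | 0, y => y
  | k + 1, y => rpow x k y * x

theorem rpow_succ' (x : S) (k : ℕ) (y : S) : rpow x (k + 1) y = rpow x k (y * x) := by
  induction k with
  | zero => rfl
  | succ k ih => rw [rpow, ih, rpow]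

theorem rpow_lpow (x : S) (i j : ℕ) : rpow x j (lpow x i) = lpow x (i + j) := by
  induction j with
  | zero => rfl
  | succ j ih => rw [rpow, ih, ← add_assoc, lpow]

theorem two_mul_lpow (hS : IsRA S) (x : S) (k : ℕ) (y : S) :
    y * lpow x k + y * lpow x k = rpow x (k + 1) y + rpow x (k + 1) y := by
  induction k using Nat.strong_induction_on generalizing y with
  | _ k ih =>
    match k with
    | 0 => rfl
    | 1 =>
      change y * (x * x) + y * (x * x) = (y * x) * x + (y * x) * x
      rw [hS]
    | m + 2 =>
      -- lpow x (m+2) = (lpow x m * x) * x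
      have h1 := ih m (by omega) x
      rw [rpow_succ'] at h1
      have e0 : x * lpow x m + x * lpow x m = lpow x (m + 1) + lpow x (m + 1) := by
        rw [h1]
        have : rpow x m (x * x) = lpow x (m + 1) := by
          have := rpow_lpow x 1 m
          rw [add_comm 1 m] at this
          exact this
        rw [this]
      have e1 : lpow x (m + 2) + lpow x (m + 2) = (x * lpow x m) * x + (x * lpow x m) * x := by
        rw [lpow, ← add_mul, ← add_mul, e0]
      have h2 := ih m (by omega) (y * x)
      calc y * lpow x (m + 2) + y * lpow x (m + 2)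
          = y * ((x * lpow x m) * x) + y * ((x * lpow x m) * x) := by
            rw [← mul_add, e1, mul_add]
        _ = ((y * x) * lpow x m) * x + ((y * x) * lpow x m) * x := two_moufang hS _ _ _
        _ = rpow x (m + 2 + 1) y + rpow x (m + 2 + 1) y := by
            rw [← add_mul, h2, add_mul]
            have : rpow x (m + 1) (y * x) * x = rpow x (m + 2 + 1) y := by
              rw [rpow_succ' x (m + 2)]
              rfl
            rw [this]

theorem two_lpow_mul (hS : IsRA S) (x : S) (i j : ℕ) :
    lpow x i * lpow x j + lpow x i * lpow x j = lpow x (i + j + 1) + lpow x (i + j + 1) := by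
  rw [two_mul_lpow hS, rpow_lpow, add_assoc]

/-- The additive map `X ^ k ↦ x ^ (k+1)` (left normed powers). -/
noncomputable def sig (x : S) : Polynomial ℤ →+ S :=
  (Polynomial.lsum (fun n => LinearMap.toSpanSingleton ℤ S (lpow x n))).toAddMonoidHom

theorem sig_monomial (x : S) (k : ℕ) (c : ℤ) :
    sig x (Polynomial.monomial k c) = c • lpow x k := by
  unfold sig
  change Polynomial.lsum (fun n => LinearMap.toSpanSingleton ℤ S (lpow x n))
    (Polynomial.monomial k c) = c • lpow x k
  rw [Polynomial.lsum_apply, Polynomial.sum_monomial_index]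
  · simp
  · simp

theorem sig_mul (hS : IsRA S) (x : S) (p q : Polynomial ℤ) :
    sig x p * sig x q + sig x p * sig x q =
      sig x (Polynomial.X * (p * q)) + sig x (Polynomial.X * (p * q)) := by
  induction p using Polynomial.induction_on' with
  | add p p' hp hp' =>
    rw [map_add, add_mul, add_mul, mul_add, map_add]
    calc _ = (sig x p * sig x q + sig x p * sig x q) +
          (sig x p' * sig x q + sig x p' * sig x q) := by abel
      _ = _ := by rw [hp, hp']; abel
  | monomial i c =>
    induction q using Polynomial.induction_on' with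
    | add q q' hq hq' =>
      rw [map_add, mul_add, mul_add, mul_add, map_add]
      calc _ = (sig x (Polynomial.monomial i c) * sig x q +
            sig x (Polynomial.monomial i c) * sig x q) +
            (sig x (Polynomial.monomial i c) * sig x q' +
            sig x (Polynomial.monomial i c) * sig x q') := by abel
        _ = _ := by rw [hq, hq']; abel
    | monomial j d =>
      have e : Polynomial.X * (Polynomial.monomial i c * Polynomial.monomial j d) =
          Polynomial.monomial (i + j + 1) (c * d) := by
        rw [Polynomial.monomial_mul_monomial, mul_comm, Polynomial.monomial_mul_X]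
      rw [e, sig_monomial, sig_monomial, sig_monomial, smul_mul_assoc, mul_smul_comm, smul_smul,
        ← smul_add, ← smul_add, two_lpow_mul hS]

/-- Elements whose double is twice an integral combination of powers of `x`. -/
def Tw (x a : S) : Prop := ∃ p : Polynomial ℤ, a + a = sig x p + sig x p

theorem Tw.mul_eq (hS : IsRA S) {x a b : S} {p q : Polynomial ℤ}
    (ha : a + a = sig x p + sig x p) (hb : b + b = sig x q + sig x q) :
    a * b + a * b = sig x (Polynomial.X * (p * q)) + sig x (Polynomial.X * (p * q)) := by
  rw [← add_mul, ha, add_mul, ← mul_add, hb, mul_add, sig_mul hS]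

theorem Tw.comm (hS : IsRA S) {x a b : S} (ha : Tw x a) (hb : Tw x b) :
    a * b + a * b = b * a + b * a := by
  obtain ⟨p, hp⟩ := ha
  obtain ⟨q, hq⟩ := hb
  rw [Tw.mul_eq hS hp hq, Tw.mul_eq hS hq hp, mul_comm p q]

theorem Tw.assoc (hS : IsRA S) {x a b c : S} (ha : Tw x a) (hb : Tw x b) (hc : Tw x c) :
    (a * b) * c + (a * b) * c = a * (b * c) + a * (b * c) := by
  obtain ⟨p, hp⟩ := ha
  obtain ⟨q, hq⟩ := hb
  obtain ⟨r, hr⟩ := hc
  rw [Tw.mul_eq hS (Tw.mul_eq hS hp hq) hr, Tw.mul_eq hS hp (Tw.mul_eq hS hq hr)]
  have : Polynomial.X * (Polynomial.X * (p * q) * r) =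
      Polynomial.X * (p * (Polynomial.X * (q * r))) := by ring
  rw [this]

theorem Tw.mul (hS : IsRA S) {x a b : S} (ha : Tw x a) (hb : Tw x b) : Tw x (a * b) := by
  obtain ⟨p, hp⟩ := ha
  obtain ⟨q, hq⟩ := hb
  exact ⟨_, Tw.mul_eq hS hp hq⟩

theorem Tw.add {x a b : S} (ha : Tw x a) (hb : Tw x b) : Tw x (a + b) := by
  obtain ⟨p, hp⟩ := ha
  obtain ⟨q, hq⟩ := hb
  refine ⟨p + q, ?_⟩
  rw [map_add]
  calc a + b + (a + b) = (a + a) + (b + b) := by abel
    _ = _ := by rw [hp, hq]; abel

theorem Tw.zsmul {x a : S} (ha : Tw x a) (n : ℤ) : Tw x (n • a) := by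
  obtain ⟨p, hp⟩ := ha
  refine ⟨n • p, ?_⟩
  rw [map_zsmul, ← smul_add, hp, smul_add]

theorem Tw.self (x : S) : Tw x x := by
  refine ⟨1, ?_⟩
  have : sig x 1 = x := by
    have := sig_monomial x 0 1
    rw [Polynomial.monomial_zero_one] at this
    rw [this, one_smul]; rfl
  rw [this]

end

open FreeNonUnitalNonAssocAlgebra in
/-- In the free right alternative ring of rank one every element is `Tw`. -/
theorem tw_free (a : FreeRA (Fin 1)) : Tw (fgen (0 : Fin 1)) a := by
  have hS := isRA_freeRA (Fin 1)
  induction a using Quotient.inductionOn with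
  | h a =>
    induction a using MonoidAlgebra.induction_linear with
    | zero => exact ⟨0, by rw [map_zero]; rfl⟩
    | add f g hf hg => exact Tw.add hf hg
    | single m c =>
      have hm : ∀ m : FreeMagma (Fin 1),
          Tw (fgen (0 : Fin 1)) ((MonoidAlgebra.single m (1 : ℤ) :
            FreeNonUnitalNonAssocAlgebra ℤ (Fin 1)) : FreeRA (Fin 1)) := by
        intro m
        induction m with
        | ih1 i =>
          have : i = 0 := Subsingleton.elim _ _
          subst this
          exact Tw.self _
        | ih2 u v hu hv =>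
          have e : (MonoidAlgebra.single (u * v) (1 : ℤ) :
              FreeNonUnitalNonAssocAlgebra ℤ (Fin 1)) =
              MonoidAlgebra.single u 1 * MonoidAlgebra.single v 1 := by
            rw [MonoidAlgebra.single_mul_single, one_mul]
          rw [e]
          exact Tw.mul hS hu hv
      have e : (MonoidAlgebra.single m c : FreeNonUnitalNonAssocAlgebra ℤ (Fin 1)) =
          c • MonoidAlgebra.single m 1 := by
        rw [MonoidAlgebra.smul_single, smul_eq_mul, mul_one]
      rw [e]
      exact Tw.zsmul (hm m) c

end Pool.Agent.helper53.RA2
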