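import Mathlib
import Pool.Agent.helper53.RA2.Defs
import Pool.Agent.helper53.RA2.Seq
import Pool.Agent.helper53.RA2.Pow

/-!
Rings of characteristic two in the varieties generated by free right alternative rings, and the
determination of the first variety of the chain.
-/

namespace Pool.Agent.helper53.RA2

open FreeNonUnitalNonAssocAlgebra

universe u

/-- The element that becomes the first of the two elements `p`, `q` in the one-generated
extension. -/
def wordP {A : Type*} [Mul A] (g : A) : A := g * ((g * ((g * g) * g)) * g)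

/-- The element that becomes the second one. -/
def wordQ {A : Type*} [Mul A] (g : A) : A := g * (((g * (g * g)) * ((g * g) * g)) * g)

theorem map_wordP {A B : Type*} [NonUnitalNonAssocRing A] [NonUnitalNonAssocRing B]
    (ψ : A →ₙ+* B) (g : A) : ψ (wordP g) = wordP (ψ g) := by
  simp only [wordP, map_mul]

theorem map_wordQ {A B : Type*} [NonUnitalNonAssocRing A] [NonUnitalNonAssocRing B]
    (ψ : A →ₙ+* B) (g : A) : ψ (wordQ g) = wordQ (ψ g) := by
  simp only [wordQ, map_mul]

theorem map_lpow {A B : Type*} [NonUnitalNonAssocRing A] [NonUnitalNonAssocRing B]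
    (ψ : A →ₙ+* B) (g : A) (k : ℕ) : ψ (lpow g k) = lpow (ψ g) k := by
  induction k with
  | zero => rfl
  | succ k ih => rw [lpow, map_mul, ih, lpow]

theorem inVariety_of_isRA (n : ℕ) (hn : 1 ≤ n) (R : Type u) [NonUnitalNonAssocRing R]
    (h2 : ∀ x : R, x + x = 0) (hR : IsRA R) : InVariety n R := by
  intro f hf a
  have h2' : ∀ x : R, 2 • x = 0 := fun x => by rw [two_nsmul]; exact h2 x
  let m1 : Module (ZMod 2) R := AddCommGroup.zmodModule h2'
  have hD : IsRA (Ext R rhoP) :=
    isRA_ext rhoP hR h2 isRA_poly (fun t w => by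
      rw [rhoP_apply, rhoP_apply, rhoP_apply, mul_assoc])
  have hD2 : ∀ x : Ext R rhoP, x + x = 0 := char_ext rhoP h2 char_poly char_poly
  have hD2' : ∀ x : Ext R rhoP, 2 • x = 0 := fun x => by rw [two_nsmul]; exact hD2 x
  let m2 : Module (ZMod 2) (Ext R rhoP) := AddCommGroup.zmodModule hD2'
  have hE : IsRA (Ext (Ext R rhoP) rho4) := isRA_ext rho4 hD hD2 isRA_T4 rho4_sq
  let g : Ext (Ext R rhoP) rho4 := gen genP (genQ a)
  let ψ : FreeRA (Fin n) →ₙ+* Ext (Ext R rhoP) rho4 := freeLift hE (fun _ => g)
  let x : FreeRA (Fin n) := fgen ⟨0, hn⟩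
  have hx : ψ x = g := freeLift_fgen hE _ _
  let W : ℕ → FreeRA (Fin n) := fun k => lpow (wordQ x) k * wordP x
  have hP : wordP g = inl rho4 genP := gen_y _ _
  have hQ : wordQ g = inl rho4 (genQ a) := gen_y' _ _
  have hW : ∀ k, ψ (W k) = inl rho4 (inl rhoP (a k)) := by
    intro k
    change ψ (lpow (wordQ x) k * wordP x) = _
    rw [map_mul, map_lpow, map_wordQ, map_wordP, hx, hP, hQ, ← map_lpow, ← map_mul,
      lpow_mul_genP]
  have key := lift_map ψ W f
  rw [hf W, map_zero] at key
  have key2 : lift ℤ (fun k => inl rho4 (inl rhoP (a k))) f =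
      inl rho4 (inl rhoP (lift ℤ a f)) := by
    rw [lift_map (inl rho4) (fun k => inl rhoP (a k)) f, lift_map (inl rhoP) a f]
  have : (fun k => ψ (W k)) = fun k => inl rho4 (inl rhoP (a k)) := funext hW
  rw [this, key2] at key
  have k1 : inl rhoP (lift ℤ a f) = 0 := inl_injective rho4 (by rw [key, map_zero])
  exact inl_injective rhoP (by rw [k1, map_zero])

theorem isRA_of_inVariety (n : ℕ) (R : Type u) [NonUnitalNonAssocRing R]
    (h : InVariety n R) : IsRA R := by
  intro x y
  let X : FreeNonUnitalNonAssocAlgebra ℤ ℕ := of ℤ 0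
  let Y : FreeNonUnitalNonAssocAlgebra ℤ ℕ := of ℤ 1
  have hf : Satisfies (FreeRA (Fin n)) ((Y * X) * X - Y * (X * X)) := by
    intro a
    rw [map_sub, map_mul, map_mul, map_mul, map_mul, sub_eq_zero]
    exact isRA_freeRA (Fin n) _ _
  have := h _ hf (fun i => if i = 0 then x else y)
  rw [map_sub, map_mul, map_mul, map_mul, map_mul, sub_eq_zero] at this
  simpa [X, Y] using this

theorem two_comm_of_inVariety (R : Type u) [NonUnitalNonAssocRing R]
    (h : InVariety 1 R) (x y : R) : x * y + x * y = y * x + y * x := by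
  let X : FreeNonUnitalNonAssocAlgebra ℤ ℕ := of ℤ 0
  let Y : FreeNonUnitalNonAssocAlgebra ℤ ℕ := of ℤ 1
  have hf : Satisfies (FreeRA (Fin 1)) (X * Y + X * Y - (Y * X + Y * X)) := by
    intro a
    rw [map_sub, map_add, map_add, map_mul, map_mul, sub_eq_zero]
    exact Tw.comm (isRA_freeRA (Fin 1)) (tw_free _) (tw_free _)
  have := h _ hf (fun i => if i = 0 then x else y)
  rw [map_sub, map_add, map_add, map_mul, map_mul, sub_eq_zero] at this
  simpa [X, Y] using this

theorem two_assoc_of_inVariety (R : Type u) [NonUnitalNonAssocRing R]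
    (h : InVariety 1 R) (x y z : R) :
    (x * y) * z + (x * y) * z = x * (y * z) + x * (y * z) := by
  let X : FreeNonUnitalNonAssocAlgebra ℤ ℕ := of ℤ 0
  let Y : FreeNonUnitalNonAssocAlgebra ℤ ℕ := of ℤ 1
  let Z : FreeNonUnitalNonAssocAlgebra ℤ ℕ := of ℤ 2
  have hf : Satisfies (FreeRA (Fin 1))
      ((X * Y) * Z + (X * Y) * Z - (X * (Y * Z) + X * (Y * Z))) := by
    intro a
    rw [map_sub, map_add, map_add, map_mul, map_mul, map_mul, map_mul, sub_eq_zero]
    exact Tw.assoc (isRA_freeRA (Fin 1)) (tw_free _) (tw_free _) (tw_free _)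
  have := h _ hf (fun i => if i = 0 then x else if i = 1 then y else z)
  rw [map_sub, map_add, map_add, map_mul, map_mul, map_mul, map_mul, sub_eq_zero] at this
  simpa [X, Y, Z] using this

/-- Congruence modulo `2 A`. -/
def twoCon (A : Type*) [NonUnitalNonAssocRing A] : RingCon A where
  r x y := ∃ c, x = y + (c + c)
  iseqv := ⟨fun x => ⟨0, by simp⟩, fun {x y} ⟨c, h⟩ => ⟨-c, by rw [h]; abel⟩,
    fun {x y z} ⟨c, h⟩ ⟨d, h'⟩ => ⟨c + d, by rw [h, h']; abel⟩⟩
  add' := by
    rintro a b c d ⟨e, h⟩ ⟨e', h'⟩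
    exact ⟨e + e', by rw [h, h']; abel⟩
  mul' := by
    rintro a b c d ⟨e, h⟩ ⟨e', h'⟩
    refine ⟨b * e' + e * d + (e * e' + e * e'), ?_⟩
    rw [h, h']
    simp only [mul_add, add_mul]
    abel

/-- The quotient map of a ring congruence. -/
def quo {A : Type*} [NonUnitalNonAssocRing A] (c : RingCon A) : A →ₙ+* c.Quotient where
  toFun x := (x : c.Quotient)
  map_zero' := rfl
  map_add' _ _ := rfl
  map_mul' _ _ := rfl

theorem isRA_quo {A : Type*} [NonUnitalNonAssocRing A] (hA : IsRA A) (c : RingCon A) :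
    IsRA c.Quotient := by
  intro x y
  induction x using Quotient.inductionOn with
  | h x =>
    induction y using Quotient.inductionOn with
    | h y => exact congrArg (fun z : A => (z : c.Quotient)) (hA x y)

/-- Every identity of the free right alternative ring of rank one is divisible by `2`. -/
theorem exists_half {f : FreeNonUnitalNonAssocAlgebra ℤ ℕ}
    (hf : Satisfies (FreeRA (Fin 1)) f) :
    ∃ c : FreeRA ℕ, lift ℤ (fun i => (fgen i : FreeRA ℕ)) f = c + c := by
  have hQ : IsRA (twoCon (FreeRA ℕ)).Quotient := isRA_quo (isRA_freeRA ℕ) _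
  have h2 : ∀ x : (twoCon (FreeRA ℕ)).Quotient, x + x = 0 := by
    intro x
    induction x using Quotient.inductionOn with
    | h x => exact (RingCon.eq _).2 ⟨x, (zero_add _).symm⟩
  have h := inVariety_of_isRA 1 le_rfl _ h2 hQ f hf
    (fun i => quo (twoCon (FreeRA ℕ)) (fgen i))
  rw [lift_map] at h
  obtain ⟨c, hc⟩ := (RingCon.eq (twoCon (FreeRA ℕ))).1
    (show ((lift ℤ (fun i => (fgen i : FreeRA ℕ)) f : FreeRA ℕ) :
      (twoCon (FreeRA ℕ)).Quotient) = ((0 : FreeRA ℕ) : (twoCon (FreeRA ℕ)).Quotient) from h)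
  exact ⟨c, by rw [hc, zero_add]⟩

/-- Identities of the free right alternative ring of rank one hold in `ℤ`. -/
theorem satisfies_int {f : FreeNonUnitalNonAssocAlgebra ℤ ℕ}
    (hf : Satisfies (FreeRA (Fin 1)) f) (x : ℕ → ℤ) : lift ℤ x f = 0 := by
  have hZ : IsRA ℤ := fun x y => mul_assoc y x x
  let θ : FreeRA (Fin 1) →ₙ+* ℤ := freeLift hZ (fun _ => 1)
  have h := lift_map θ (fun k => x k • fgen (0 : Fin 1)) f
  rw [hf _, map_zero] at h
  have e : (fun k => θ (x k • fgen (0 : Fin 1))) = x := by
    funext k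
    rw [map_zsmul, freeLift_fgen, smul_eq_mul, mul_one]
  rw [e] at h
  exact h

theorem lift_mvPoly_eq_zero {f : FreeNonUnitalNonAssocAlgebra ℤ ℕ}
    (hf : Satisfies (FreeRA (Fin 1)) f) :
    lift ℤ (fun i => (MvPolynomial.X i : MvPolynomial ℕ ℤ)) f = 0 := by
  apply MvPolynomial.funext
  intro x
  rw [map_zero]
  have h := lift_map ((MvPolynomial.eval x : MvPolynomial ℕ ℤ →+* ℤ) : MvPolynomial ℕ ℤ →ₙ+* ℤ)
    (fun i => (MvPolynomial.X i : MvPolynomial ℕ ℤ)) f
  have e : (fun i => ((MvPolynomial.eval x : MvPolynomial ℕ ℤ →+* ℤ) :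
      MvPolynomial ℕ ℤ →ₙ+* ℤ) (MvPolynomial.X i)) = x := by
    funext i
    exact MvPolynomial.eval_X _
  rw [e, satisfies_int hf] at h
  exact h.symm

/-- The congruence `2 x = 2 y`. -/
def dblCon (A : Type*) [NonUnitalNonAssocRing A] : RingCon A where
  r x y := x + x = y + y
  iseqv := ⟨fun x => rfl, fun h => h.symm, fun h h' => h.trans h'⟩
  add' := by
    intro a b c d h h'
    calc a + c + (a + c) = (a + a) + (c + c) := by abel
      _ = (b + b) + (d + d) := by rw [h, h']
      _ = b + d + (b + d) := by abel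
  mul' := by
    intro a b c d h h'
    calc a * c + a * c = (a + a) * c := by rw [add_mul]
      _ = b * (c + c) := by rw [h, add_mul, mul_add]
      _ = b * d + b * d := by rw [h', mul_add]

theorem inVariety_one_of (R : Type u) [NonUnitalNonAssocRing R] (hR : IsRA R)
    (hc : ∀ x y : R, x * y + x * y = y * x + y * x)
    (ha : ∀ x y z : R, (x * y) * z + (x * y) * z = x * (y * z) + x * (y * z)) :
    InVariety 1 R := by
  intro f hf a
  obtain ⟨c, hc2⟩ := exists_half hf
  let φ : FreeRA ℕ →ₙ+* R := freeLift hR a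
  have hφ : lift ℤ a f = φ c + φ c := by
    have h := lift_map φ (fun i => fgen i) f
    have e : (fun i => φ (fgen i)) = a := funext fun i => freeLift_fgen hR a i
    rw [e, hc2, map_add] at h
    exact h
  -- the polynomial of `c` vanishes
  have hM : IsRA (MvPolynomial ℕ ℤ) := fun x y => mul_assoc y x x
  let ψ : FreeRA ℕ →ₙ+* MvPolynomial ℕ ℤ := freeLift hM (fun i => MvPolynomial.X i)
  have hψ : ψ c = 0 := by
    have h := lift_map ψ (fun i => fgen i) f
    have e : (fun i => ψ (fgen i)) = fun i => MvPolynomial.X i :=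
      funext fun i => freeLift_fgen hM _ i
    rw [e, hc2, map_add, lift_mvPoly_eq_zero hf] at h
    exact self_eq_neg.1 (eq_neg_of_add_eq_zero_left h.symm)
  -- the commutative associative quotient
  let R' := (dblCon R).Quotient
  let i1 : NonUnitalCommRing R' :=
    { (inferInstance : NonUnitalNonAssocRing R') with
      mul_assoc := by
        intro x y z
        induction x using Quotient.inductionOn with
        | h x =>
          induction y using Quotient.inductionOn with
          | h y =>
            induction z using Quotient.inductionOn with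
            | h z => exact (RingCon.eq (dblCon R)).2 (ha x y z)
      mul_comm := by
        intro x y
        induction x using Quotient.inductionOn with
        | h x =>
          induction y using Quotient.inductionOn with
          | h y => exact (RingCon.eq (dblCon R)).2 (hc x y) }
  let q : R →ₙ+* R' := quo (dblCon R)
  let ι : R' →ₙ+* Unitization ℤ R' :=
    { toFun := fun x => Unitization.inr x
      map_zero' := rfl
      map_add' := fun x y => Unitization.inr_add ℤ x y
      map_mul' := fun x y => Unitization.inr_mul ℤ x y }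
  let ev : MvPolynomial ℕ ℤ →+* Unitization ℤ R' :=
    MvPolynomial.eval₂Hom (Int.castRingHom _) (fun i => ι (q (a i)))
  have hev : ev (ψ c) = ι (q (φ c)) := by
    induction c using Quotient.inductionOn with
    | h g =>
      change ev (lift ℤ (fun i => MvPolynomial.X i) g) = ι (q (lift ℤ a g))
      have h1 := lift_map ((ev : MvPolynomial ℕ ℤ →+* Unitization ℤ R') :
        MvPolynomial ℕ ℤ →ₙ+* Unitization ℤ R')
        (fun i => (MvPolynomial.X i : MvPolynomial ℕ ℤ)) g
      have h2 := lift_map ι (fun i => q (a i)) g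
      have h3 := lift_map q a g
      have e : (fun i => ((ev : MvPolynomial ℕ ℤ →+* Unitization ℤ R') :
        MvPolynomial ℕ ℤ →ₙ+* Unitization ℤ R') (MvPolynomial.X i)) =
          fun i => ι (q (a i)) := by
        funext i
        exact MvPolynomial.eval₂Hom_X' _ _ _
      rw [e] at h1
      rw [← h3, ← h2, h1]
      rfl
  rw [hψ, map_zero] at hev
  have h0 : q (φ c) = 0 := by
    have : Unitization.inr (R := ℤ) (q (φ c)) = Unitization.inr (R := ℤ) (0 : R') := hev.symm
    exact Unitization.inr_injective this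
  have h1 : φ c + φ c = 0 + 0 := (RingCon.eq (dblCon R)).1 h0
  rw [hφ, h1, add_zero]

end Pool.Agent.helper53.RA2
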