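import Pool.Agent.helper53.RA2.Ext

/-!
Embeddings of right alternative rings of characteristic two: a countable family lies in a
two-generated subring of an extension, two elements lie in a one-generated subring of an
extension.
-/

namespace Pool.Agent.helper53.RA2

/-- A four dimensional right alternative algebra over `ZMod 2`, generated by `(1,0,0,0)`. -/
def T4 : Type := ZMod 2 × ZMod 2 × ZMod 2 × ZMod 2

instance : AddCommGroup T4 := inferInstanceAs (AddCommGroup (ZMod 2 × ZMod 2 × ZMod 2 × ZMod 2))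

instance : Mul T4 :=
  ⟨fun s t => (0, s.1 * t.1, s.1 * t.2.1 + s.2.1 * t.1, s.1 * t.2.2.1)⟩

theorem t4_mul (s t : T4) :
    s * t = (0, s.1 * t.1, s.1 * t.2.1 + s.2.1 * t.1, s.1 * t.2.2.1) := rfl

theorem t4_ext {s t : T4} (h1 : s.1 = t.1) (h2 : s.2.1 = t.2.1) (h3 : s.2.2.1 = t.2.2.1)
    (h4 : s.2.2.2 = t.2.2.2) : s = t := Prod.ext h1 (Prod.ext h2 (Prod.ext h3 h4))

@[simp] theorem t4_add1 (s t : T4) : (s + t).1 = s.1 + t.1 := rfl
@[simp] theorem t4_add2 (s t : T4) : (s + t).2.1 = s.2.1 + t.2.1 := rfl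
@[simp] theorem t4_add3 (s t : T4) : (s + t).2.2.1 = s.2.2.1 + t.2.2.1 := rfl
@[simp] theorem t4_add4 (s t : T4) : (s + t).2.2.2 = s.2.2.2 + t.2.2.2 := rfl
@[simp] theorem t4_mul1 (s t : T4) : (s * t).1 = 0 := rfl
@[simp] theorem t4_mul2 (s t : T4) : (s * t).2.1 = s.1 * t.1 := rfl
@[simp] theorem t4_mul3 (s t : T4) : (s * t).2.2.1 = s.1 * t.2.1 + s.2.1 * t.1 := rfl
@[simp] theorem t4_mul4 (s t : T4) : (s * t).2.2.2 = s.1 * t.2.2.1 := rfl

instance : NonUnitalNonAssocRing T4 :=
  { (inferInstance : AddCommGroup T4), (inferInstance : Mul T4) with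
    left_distrib := by intro a b c; apply t4_ext <;> simp <;> ring
    right_distrib := by intro a b c; apply t4_ext <;> simp <;> ring
    zero_mul := by
      intro a
      apply t4_ext
      · rfl
      · exact zero_mul _
      · change (0 : ZMod 2) * _ + 0 * _ = 0; simp
      · exact zero_mul _
    mul_zero := by
      intro a
      apply t4_ext
      · rfl
      · exact mul_zero _
      · change _ * (0 : ZMod 2) + _ * 0 = 0; simp
      · exact mul_zero _ }

theorem two_eq : (2 : ZMod 2) = 0 := rfl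

theorem isRA_T4 : IsRA T4 := by
  intro x y
  apply t4_ext
  · rfl
  · simp
  · simp
    ring
  · simp only [t4_mul1, t4_mul3, t4_mul4]
    linear_combination (-(y.1 * x.1 * x.2.1)) * two_eq

theorem char_T4 (x : T4) : x + x = 0 := by
  apply t4_ext
  · exact CharTwo.add_self_eq_zero _
  · exact CharTwo.add_self_eq_zero _
  · exact CharTwo.add_self_eq_zero _
  · exact CharTwo.add_self_eq_zero _

/-- An eight dimensional space. -/
abbrev V8 : Type := (ZMod 2 × ZMod 2 × ZMod 2 × ZMod 2) × (ZMod 2 × ZMod 2 × ZMod 2 × ZMod 2)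

/-- The action of `T4` on `V8`, as a function. -/
def act (t : T4) (w : V8) : V8 :=
  ((0, t.1 * w.1.1, t.1 * w.1.2.1 + t.2.1 * w.1.1, t.1 * w.1.2.2.1 + t.2.1 * w.1.2.1),
   (t.2.2.1 * w.1.2.1 + t.2.2.2 * w.1.1,
    t.1 * w.2.1 + t.2.2.2 * w.1.2.1,
    t.1 * w.2.2.1 + t.2.1 * w.2.1 + t.2.2.1 * w.1.2.2.2 + t.2.2.2 * w.1.2.2.1,
    t.1 * w.2.2.2.1 + t.2.1 * w.2.2.1 + t.2.2.2 * w.1.2.2.2))

theorem v8_ext {s t : V8} (h1 : s.1.1 = t.1.1) (h2 : s.1.2.1 = t.1.2.1)
    (h3 : s.1.2.2.1 = t.1.2.2.1) (h4 : s.1.2.2.2 = t.1.2.2.2) (h5 : s.2.1 = t.2.1)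
    (h6 : s.2.2.1 = t.2.2.1) (h7 : s.2.2.2.1 = t.2.2.2.1) (h8 : s.2.2.2.2 = t.2.2.2.2) :
    s = t :=
  Prod.ext (Prod.ext h1 (Prod.ext h2 (Prod.ext h3 h4)))
    (Prod.ext h5 (Prod.ext h6 (Prod.ext h7 h8)))

/-- The action of `T4` on `V8`. -/
def rho4 : T4 →+ AddMonoid.End V8 where
  toFun t :=
    { toFun := act t
      map_zero' := by
        apply v8_ext <;> simp [act]
      map_add' := by
        intro a b
        apply v8_ext <;> simp [act] <;> ring }
  map_zero' := by
    apply AddMonoidHom.ext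
    intro w
    change act 0 w = 0
    apply v8_ext <;> change _ = (0 : ZMod 2) <;> simp only [act] <;>
      (try change (0 : ZMod 2) * _ = 0) <;> (try exact zero_mul _) <;> 
      (try change (0 : ZMod 2) * _ + 0 * _ = 0) <;>
      (try change (0 : ZMod 2) * _ + 0 * _ + 0 * _ = 0) <;>
      (try change (0 : ZMod 2) * _ + 0 * _ + 0 * _ + 0 * _ = 0) <;> (try simp)
  map_add' s t := by
    apply AddMonoidHom.ext
    intro w
    change act (s + t) w = act s w + act t w
    apply v8_ext <;> simp [act] <;> ring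

theorem rho4_apply (t : T4) (w : V8) : rho4 t w = act t w := rfl

theorem rho4_sq (t : T4) (w : V8) : rho4 (t * t) w = rho4 t (rho4 t w) := by
  rw [rho4_apply, rho4_apply, rho4_apply]
  apply v8_ext
  · rfl
  · simp [act]
  · simp [act]; ring
  · simp [act]
    linear_combination (-(t.1 * t.2.1 * w.1.1)) * two_eq
  · simp [act]
    linear_combination (t.1 * t.2.1 * w.1.2.1) * two_eq
  · simp [act]
    linear_combination (-(t.1 * t.2.2.2 * w.1.1)) * two_eq
  · simp [act]
    linear_combination (t.1 * t.2.1 * w.1.2.2.2 - t.1 * t.2.2.2 * w.1.2.1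
      - t.2.1 * t.2.2.1 * w.1.2.1 - t.2.1 * t.2.2.2 * w.1.1) * two_eq
  · simp [act]
    linear_combination (- t.1 * t.2.1 * w.2.1 - t.1 * t.2.2.2 * w.1.2.2.1
      - t.2.1 * t.2.2.2 * w.1.2.1) * two_eq

section gen

variable {D : Type*} [NonUnitalNonAssocRing D]

/-- The additive map `V8 → D` picking two coordinates. -/
def pick [Module (ZMod 2) D] (p q : D) : V8 →+ D where
  toFun w := w.2.1 • p + w.2.2.2.1 • q
  map_zero' := by simp
  map_add' a b := by
    simp only [Prod.snd_add, Prod.fst_add, add_smul]; abel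

/-- The generator of the one-generated extension. -/
def gen [Module (ZMod 2) D] (p q : D) : Ext D rho4 :=
  (0, ((1, 0, 0, 0), (0, 0, 0, 0)), ((1, 0, 0, 0) : T4), pick p q)

theorem pick_apply [Module (ZMod 2) D] (p q : D) (w : V8) :
    pick p q w = w.2.1 • p + w.2.2.2.1 • q := rfl

theorem gen_y [Module (ZMod 2) D] (p q : D) :
    gen p q * ((gen p q * ((gen p q * gen p q) * gen p q)) * gen p q) = inl rho4 p := by
  apply ext'
  · simp only [mul_1, mul_2, mul_3, mul_4, gen, rho4_apply, pick_apply]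
    simp [act, t4_mul, inl_apply]
  · simp only [mul_2, mul_3, gen, rho4_apply]
    simp [act, t4_mul, inl_apply]
  · simp only [mul_3, gen]
    simp [t4_mul, inl_apply]
    rfl
  · intro w
    simp only [mul_1, mul_2, mul_3, mul_4, gen, rho4_apply, pick_apply]
    simp [act, t4_mul, inl_apply]

theorem gen_y' [Module (ZMod 2) D] (p q : D) :
    gen p q * (((gen p q * (gen p q * gen p q)) * ((gen p q * gen p q) * gen p q)) * gen p q)
      = inl rho4 q := by
  apply ext'
  · simp only [mul_1, mul_2, mul_3, mul_4, gen, rho4_apply, pick_apply]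
    simp [act, t4_mul, inl_apply]
  · simp only [mul_2, mul_3, gen, rho4_apply]
    simp [act, t4_mul, inl_apply]
  · simp only [mul_3, gen]
    simp [t4_mul, inl_apply]
    rfl
  · intro w
    simp only [mul_1, mul_2, mul_3, mul_4, gen, rho4_apply, pick_apply]
    simp [act, t4_mul, inl_apply]

end gen

end Pool.Agent.helper53.RA2
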